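import Pool.Agent.Results.MP_a3f657_nt.TrivialSelInfTwists
import Pool.Agent.Results.MP_8b7eba_nt.FixedNumberOfPrimes

/-!
# The `2 ^ ∞`-Selmer groups of the twists of `X_0(14)` by products of a fixed number of primes from an
# arbitrary dense set: the exact probability of the zero sequence

`E D : y² = x³ + 5805 D² x - 285714 D³` are the quadratic twists of the curve `X_0(14)` (no complex
multiplication, exactly one rational point of order two).  The class `Adm` consists of the squarefree
`D = 1 mod 4` of any sign which are squares modulo `7`, prime to `3`, and all prime factors of which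
split completely in `ℚ(i, √2, √-7)` or are inert in `ℚ(√2)` and in `ℚ(√-7)`.

We fix the number `k` of the split prime divisors of `D` and the numbers `a`, `b` of the inert prime
divisors which are `3` and `5` modulo `8`, `b` even and `a + b ≥ 1`, and an arbitrary set `S` of primes
which contains a positive lower proportion of the primes of each of the kinds that occur (no other
condition).

Theorem.  Among the `D` with exactly `k`, `a`, `b` prime divisors of the three kinds, all of them in `S`,
ordered by `|D|` (that is, by the height of `E D`), the proportion of those for which all the terms of the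
sequence `0 → E(ℚ) ⊗ ℚ₂/ℤ₂ → Sel_{2 ^ ∞}(E) → Ш(E)[2 ^ ∞] → 0` are zero tends to

`∏_{i < (k + 1) / 2} (1 - 2^{-(2 i + 1)})`,

the proportion of the nonsingular matrices among the symmetric `k` times `k` matrices over the field
with two elements: `1`, `1/2`, `1/2`, `7/16`, `7/16`, … for `k = 0, 1, 2, 3, 4, …`.  For `k → ∞` this tends to
`∏_{i ≥ 1} (1 - 2^{1 - 2 i}) = 0.4194...`, twice the probability of the zero sequence in the model of Bhargava,
Kane, Lenstra, Poonen and Rains (that is, its probability under the condition of even parity).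

The criterion is the theorem of the file `TrivialSelInfTwists` of this problem; the count of the matrices
`R D` is that of the file `FixedNumberOfPrimes` of problem `MP_8b7eba_nt` (library
`Pool/Agent/V11291/FK`).
-/

set_option autoImplicit false

open Finset Filter Topology

namespace Pool.Agent.Results.MP_a3f657_nt.FixedNumberZeroSequences

open Pool.Agent.Results.MP_a3f657_nt.TrivialSelInfTwists (E ZeroSeq R Adm Split Inert)

open Pool.Agent.Y17.X.SI (SelInf)

/-- the number of the prime factors of `D` which are `r` modulo `8` -/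
def number (r : ℕ) (D : ℤ) : ℕ := (D.natAbs.primeFactors.filter fun p => p % 8 = r).card

/-- the `D` of the class with all the prime factors in `S`, exactly `k` of them split (these are the
prime factors `1` modulo `8`), and exactly `a` and `b` of them inert and `3` and `5` modulo `8` -/
def Family (S : Set ℕ) (k a b : ℕ) (D : ℤ) : Prop :=
  Adm D ∧ (∀ p : ℕ, p.Prime → (p : ℤ) ∣ D → p ∈ S) ∧ number 1 D = k ∧ number 3 D = a ∧ number 5 D = b

/-- at least a positive proportion of the primes up to `Y` has the property `Q`, for all large `Y` -/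
def Dense (Q : ℕ → Prop) : Prop := ∃ (δ : ℝ) (Y₀ : ℕ), 0 < δ ∧ ∀ Y : ℕ, Y₀ ≤ Y →
  δ * (Y / Real.log Y) ≤ (Nat.card {p : ℕ // p ≤ Y ∧ Q p} : ℝ)

/-- the primes of the class in `S` which are `r` modulo `8` -/
def Kind (S : Set ℕ) (r p : ℕ) : Prop := p ∈ S ∧ p ≠ 3 ∧ (Split p ∨ Inert p) ∧ p % 8 = r

/-- `S` contains a positive lower proportion of the primes of each of the kinds that occur -/
def Rich (S : Set ℕ) (k a b : ℕ) : Prop :=
  (1 ≤ k → Dense (Kind S 1)) ∧ (1 ≤ a → Dense (Kind S 3)) ∧ (1 ≤ b → Dense (Kind S 5))

/-- the number of the integers `D` with `|D| ≤ X` and `Q D` -/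
noncomputable def count (Q : ℤ → Prop) (X : ℕ) : ℕ := Nat.card {D : ℤ // |D| ≤ X ∧ Q D}

/-- the proportion `∏_{i < (k + 1) / 2} (1 - 2^{-(2 i + 1)})` of the nonsingular matrices among the
symmetric `k` times `k` matrices over the field with two elements -/
noncomputable def proportion (k : ℕ) : ℝ :=
  ∏ i ∈ range ((k + 1) / 2), (1 - (1 / 2 : ℝ) ^ (2 * i + 1))

/-- the probability of the zero sequence, `p = 2`, in the model:
`(1 / 2) ∏_{i ≥ 1} (1 - 2^{1 - 2 i})` (the case `r = 0`, `G = 0` of the formula of the problem) -/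
noncomputable def model : ℝ := 1 / 2 * ∏' i : ℕ, (1 - (1 / 2 : ℝ) ^ (2 * i + 1))

lemma tendsto_proportion : Tendsto proportion atTop (𝓝 (2 * model)) := by
  obtain ⟨hC, -⟩ := Pool.Agent.Y948.CQ.t_C2
  have h1 : Tendsto (fun n : ℕ => ∏ i ∈ range n, (1 - (1 / 2 : ℝ) ^ (2 * i + 1))) atTop
      (𝓝 Pool.Agent.Y703.CQ.c2) := by
    rw [tendsto_iff_norm_sub_tendsto_zero]
    refine squeeze_zero (fun n => norm_nonneg _) (fun n => ?_)
      (tendsto_pow_atTop_nhds_zero_of_lt_one (by norm_num : (0 : ℝ) ≤ 1 / 4)
        (by norm_num : (1 / 4 : ℝ) < 1))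
    rw [Real.norm_eq_abs]
    exact hC n
  have h2 : Tendsto (fun k : ℕ => (k + 1) / 2) atTop atTop := by
    refine tendsto_atTop.2 fun n => ?_
    filter_upwards [eventually_ge_atTop (2 * n)] with k hk
    omega
  have h3 : 2 * model = Pool.Agent.Y703.CQ.c2 := by
    unfold model Pool.Agent.Y703.CQ.c2
    ring
  rw [h3]
  exact h1.comp h2

lemma model_bounds : 0.2097 < model ∧ model < 0.2098 := by
  obtain ⟨-, -, -, hc1, hc2⟩ := Pool.Agent.Y948.CQ.t_C2
  have h3 : model = 1 / 2 * Pool.Agent.Y703.CQ.c2 := rfl
  rw [h3]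
  constructor <;> linarith

/-- the law for the family -/
def Law (S : Set ℕ) (k a b : ℕ) : Prop :=
  (∃ (c C : ℝ) (X₀ : ℕ), 0 < c ∧ 0 < C ∧ ∀ X : ℕ, X₀ ≤ X →
    c * (X * Real.log (Real.log X) ^ (k + a + b - 1) / Real.log X) ≤ (count (Family S k a b) X : ℝ) ∧
    (count (Family S k a b) X : ℝ) ≤
      C * (X * Real.log (Real.log X) ^ (k + a + b - 1) / Real.log X)) ∧
  Tendsto (fun X : ℕ => (count (fun D => Family S k a b D ∧ ZeroSeq D) X : ℝ) /
    (count (Family S k a b) X : ℝ)) atTop (𝓝 (proportion k))

lemma R_eq (D : ℤ) : R D = Pool.Agent.Y687.MQ.matD D := by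
  have hN : ∀ p : ℕ, Pool.Agent.Results.MP_a3f657_nt.TrivialSelInfTwists.N p =
      Pool.Agent.Y687.NN 1 p := fun p => by
    unfold Pool.Agent.Results.MP_a3f657_nt.TrivialSelInfTwists.N Pool.Agent.Y687.NN
      Pool.Agent.Y687.cnt Pool.Agent.Results.MP_a3f657_nt.TrivialSelInfTwists.A
      Pool.Agent.Results.MP_a3f657_nt.TrivialSelInfTwists.B
    rw [add_comm]
    norm_num
  unfold R Pool.Agent.Y687.MQ.matD
  ext i j
  simp only [Matrix.of_apply, hN]
  rfl

lemma zero_iff {D : ℤ} (hD : Adm D) :
    ZeroSeq D ↔ Pool.Agent.Results.MP_8b7eba_nt.FixedNumberOfPrimes.Good D := by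
  have h1 := (Pool.Agent.Results.MP_a3f657_nt.TrivialSelInfTwists.result.1 D hD).2
  have h2 := (Pool.Agent.Results.MP_8b7eba_nt.FixedNumberOfPrimes.result.1 D hD).2
  rw [R_eq] at h1
  rw [Pool.Agent.Results.MP_8b7eba_nt.FixedNumberOfPrimes.R_eq] at h2
  exact h1.trans h2.symm

/-- **Main theorem.**
(1) For `D` in the class the sequence of `E D` is zero if and only if its `2 ^ ∞`-Selmer group is zero, and
if and only if the matrix `R D` is nonsingular.
(2) Let `b` be even, `a + b ≥ 1`, and let `S` be a set of primes which contains a positive lower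
proportion of the primes of each of the kinds that occur.  Then the number of the `D` of the class with
exactly `k`, `a`, `b` prime factors of the three kinds, all in `S`, and `|D| ≤ X` is between two positive
constants times `X (log log X)^(k + a + b - 1) / log X`, and the proportion of those with the zero
sequence tends to `∏_{i < (k + 1) / 2} (1 - 2^{-(2 i + 1)})`.
(3) For `k → ∞` these proportions tend to twice the probability of the zero sequence in the model, which
is `0.2097...`.
(4) The `D` of these families are positive if `a` is even and negative if `a` is odd; there are none if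
`b` is odd.
(5) The condition on `S` holds if `S` is the set of the numbers in a residue class `c` modulo `q`, with
`q` prime to `14` and `c` prime to `q`. -/
theorem result :
    (∀ D : ℤ, Adm D → (ZeroSeq D ↔ ∀ x : SelInf (E D), x = 0) ∧ (ZeroSeq D ↔ (R D).det ≠ 0)) ∧
    (∀ (S : Set ℕ) (k a b : ℕ), Even b → 1 ≤ a + b → Rich S k a b → Law S k a b) ∧
    (Tendsto proportion atTop (𝓝 (2 * model)) ∧ 0.2097 < model ∧ model < 0.2098) ∧
    (∀ (S : Set ℕ) (k a b : ℕ) (D : ℤ), Family S k a b D → (0 < D ↔ Even a) ∧ Even b) ∧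
    ∀ q c : ℕ, Nat.Coprime q 14 → Nat.Coprime c q → ∀ k a b : ℕ,
      Rich {p | p % q = c % q} k a b := by
  obtain ⟨-, h2, h3, h4⟩ := Pool.Agent.Results.MP_8b7eba_nt.FixedNumberOfPrimes.result
  refine ⟨Pool.Agent.Results.MP_a3f657_nt.TrivialSelInfTwists.result.1, fun S k a b hb hab hS => ?_,
    ⟨tendsto_proportion, model_bounds⟩, fun S k a b D hD => h3 S k a b D hD,
    fun q c hq hc k a b => h4 q c hq hc k a b⟩
  obtain ⟨g1, g2⟩ := h2 S k a b hb hab hS
  refine ⟨g1, ?_⟩
  have e : (fun D => Family S k a b D ∧ ZeroSeq D) = fun D =>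
      Pool.Agent.Results.MP_8b7eba_nt.FixedNumberOfPrimes.Family S k a b D ∧
        Pool.Agent.Results.MP_8b7eba_nt.FixedNumberOfPrimes.Good D := by
    funext D
    apply propext
    exact and_congr_right fun h => zero_iff h.1
  rw [e]
  exact g2

end Pool.Agent.Results.MP_a3f657_nt.FixedNumberZeroSequences
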