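import Pool.Agent.Results.MP_03e5d0_nt.TwoCurvesAnalyticRankZero
import Pool.Agent.Y17.X.SelInf

/-!
# The `2 ^ ∞`-Selmer groups of the twists of two elliptic curves which are not isogenous: asymptotic
# independence and exact proportions of the zero sequences

`y² = x³ + 5805 x - 285714` is a model of `X_0(14)` (no complex multiplication) and
`y² = x³ - 35 x - 98` a model of `X_0(49)` (complex multiplication by `ℤ[(1 + √-7)/2]`).  We twist any
finite number of the quadratic twists `E_M` of the first one and `A_L` of the second one by the same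
integers `D` of the class `Base` (squarefree, positive, squares modulo `7`, with prime factors which
split completely in `ℚ(i, √2, √-7)` or are `5` modulo `8` and inert in `ℚ(√-7)`).

Theorem.  Let `c = ∏_{i ≥ 1} (1 - 2^{1 - 2 i}) = 0.4194...` (twice the probability of the zero sequence in
the model, that is, its probability under the condition of even parity).  The events that the
sequences `0 → E(ℚ) ⊗ ℚ₂/ℤ₂ → Sel_{2 ^ ∞}(E) → Ш(E)[2 ^ ∞] → 0` of the curves `E_{M D}`, `A_{L D}` are zero
have probability `c` each and are asymptotically independent: each pattern of `n` zero and `n'` nonzero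
sequences has the exact proportion `c ^ n (1 - c) ^ n'`.

The joint law (for the events: finitely many rational points and `Ш[2] = 0`) is in the file
`TwoCurvesAnalyticRankZero` of problem `MP_03e5d0_nt`, after `TwoCurvesJointProportion` of problem
`MP_696deb_nt` of helper291 (`Pool/Agent/V11291/E49`).
-/

set_option autoImplicit false

open Finset
open scoped TensorProduct

namespace Pool.Agent.Results.MP_a3f657_nt.TwoCurvesZeroSequences

open Pool.Agent.TH841.SH.D (Sha Pruf)

open Pool.Agent.Y17.X.SI (SelInf)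

open Pool.Agent.Results.MP_03e5d0_nt.TwoCurvesAnalyticRankZero (E RankZeroShaTwo AnRankZero Split
  Inert Inert5 Base Fam14 Fam49 All count an14 an49 mem_fil)

/-- all the terms of the sequence `0 → E(ℚ) ⊗ ℚ₂/ℤ₂ → Sel_{2 ^ ∞}(E) → Ш(E)[2 ^ ∞] → 0` of the curve
`E : y² = x³ + a x + b` are zero -/
def ZeroSeq (a b : ℤ) : Prop :=
  (∀ x : TensorProduct ℤ (E a b).toAffine.Point Pruf, x = 0) ∧ (∀ x : SelInf (E a b), x = 0) ∧
    ∀ (k : ℕ) (x : Sha (E a b)), (2 ^ k : ℕ) • x = 0 → x = 0

lemma fin_of_tensor {A P : Type} [AddCommGroup A] [AddCommGroup P] (hfg : AddGroup.FG A)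
    (hP : ∃ z : P, z ≠ 0) (h : ∀ x : TensorProduct ℤ A P, x = 0) : Finite A := by
  have hM : Module.Finite ℤ A := Module.Finite.iff_addGroup_fg.2 hfg
  let t : Submodule ℤ A := Submodule.torsion ℤ A
  have hF : Module.Free ℤ (A ⧸ t) := inferInstance
  obtain ⟨z, hz⟩ := hP
  let b := Module.Free.chooseBasis ℤ (A ⧸ t)
  have hemp : IsEmpty (Module.Free.ChooseBasisIndex ℤ (A ⧸ t)) := by
    by_contra hne
    rw [not_isEmpty_iff] at hne
    obtain ⟨i⟩ := hne
    obtain ⟨a, ha⟩ := Submodule.Quotient.mk_surjective t (b i)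
    let g : A →ₗ[ℤ] ℤ := (b.coord i).comp t.mkQ
    have hg : g a = 1 := by
      change b.coord i (t.mkQ a) = 1
      rw [Submodule.mkQ_apply, ha, Module.Basis.coord_apply, Module.Basis.repr_self,
        Finsupp.single_eq_same]
    have h1 := congrArg (fun x => TensorProduct.lid ℤ P (TensorProduct.map g LinearMap.id x))
      (h (a ⊗ₜ z))
    simp only [TensorProduct.map_tmul, LinearMap.id_coe, id_eq, hg, TensorProduct.lid_tmul, one_smul,
      map_zero] at h1
    exact hz h1
  have hsub : Subsingleton (A ⧸ t) := by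
    have := b.repr.toEquiv
    exact this.subsingleton
  have htor : Module.IsTorsion ℤ A := by
    rw [Submodule.Quotient.subsingleton_iff] at hsub
    intro x
    have hx : x ∈ Submodule.torsion ℤ A := by
      change x ∈ t
      rw [hsub]
      exact Submodule.mem_top
    exact (Submodule.mem_torsion_iff x).1 hx
  exact Module.finite_of_fg_torsion A htor

lemma zero_iff {a b : ℤ} (hab : 4 * a ^ 3 + 27 * b ^ 2 ≠ 0) : ZeroSeq a b ↔ RankZeroShaTwo a b := by
  classical
  constructor
  · rintro ⟨h1, -, h3⟩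
    have hfg : AddGroup.FG (E a b).toAffine.Point := by
      have h := Pool.Agent.TH942.sfg (F := ℚ) (a := a) (b := b) (by exact_mod_cast hab)
      exact h
    obtain ⟨z, hz, -⟩ := Pool.Agent.TH841.SH.pruf_two
    refine ⟨fin_of_tensor hfg ⟨z, hz⟩ h1, fun x hx => h3 1 x ?_⟩
    rw [pow_one]
    exact hx
  · rintro ⟨h1, h2⟩
    have h3 : ∀ (k : ℕ) (x : Sha (E a b)), (2 ^ k : ℕ) • x = 0 → x = 0 :=
      Pool.Agent.Y17.X.SI.pow_of_two fun x hx => h2 x (by rw [two_nsmul]; exact hx)
    exact ⟨Pool.Agent.Y17.X.SI.tensor_div_zero Pool.Agent.Y17.X.SI.pruf_div,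
      Pool.Agent.Y17.X.SI.selInf_zero h1 h3, h3⟩

lemma disc14 {D : ℕ} {M : ℤ} (hD : Base D) (hM : Fam14 M) :
    4 * (5805 * (M * D) ^ 2) ^ 3 + 27 * (-285714 * (M * D) ^ 3) ^ 2 ≠ 0 := by
  have hD' : V11291.E49.BaseN D := hD
  have hM' : Y687.MQ.AdmD M := hM
  exact V11291.E49.disc14 (mul_ne_zero hM'.1.ne_zero hD'.adm.1.ne_zero)

lemma disc49 {D : ℕ} {L : ℤ} (hD : Base D) (hL : Fam49 L) :
    4 * (-35 * (L * D) ^ 2) ^ 3 + 27 * (-98 * (L * D) ^ 3) ^ 2 ≠ 0 := by
  have hD' : V11291.E49.BaseN D := hD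
  have hL' : V11291.E49.Fam49 L := hL
  exact V11291.E49.disc49 (mul_ne_zero hL'.1.ne_zero hD'.adm.1.ne_zero)

/-- **Main theorem.**
(1) For all elliptic curves `y² = x³ + a x + b` with integers `a`, `b`: all the terms of the sequence are
zero if and only if there are only finitely many rational points and no elements of order two in `Ш`.
(2) There is `c = ∏_{i ≥ 0} (1 - 2^{-(2i+1)}) = 0.4194...` such that for all finite sets `S`, `S'` in `Fam14`
and `T`, `T'` in `Fam49`, `S` and `S'` disjoint, `T` and `T'` disjoint, the proportion of the `D` of the base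
family such that the sequences of all the curves `E_{M D}`, `M ∈ S`, and `A_{L D}`, `L ∈ T`, are zero and
the sequences of all the curves `E_{M D}`, `M ∈ S'`, and `A_{L D}`, `L ∈ T'`, are not zero, tends to
`c ^ (#S + #T) (1 - c) ^ (#S' + #T')`. -/
theorem result : (∀ a b : ℤ, 4 * a ^ 3 + 27 * b ^ 2 ≠ 0 → (ZeroSeq a b ↔ RankZeroShaTwo a b)) ∧
    ∃ c : ℝ, 0.4194 < c ∧ c < 0.4195 ∧
    Filter.Tendsto (fun n : ℕ => ∏ i ∈ range n, (1 - (1 / 2 : ℝ) ^ (2 * i + 1)))
      Filter.atTop (nhds c) ∧
    ∀ S T S' T' : Finset ℤ, (∀ M ∈ S, Fam14 M) → (∀ L ∈ T, Fam49 L) →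
      (∀ M ∈ S', Fam14 M) → (∀ L ∈ T', Fam49 L) → Disjoint S S' → Disjoint T T' →
      Filter.Tendsto (fun X : ℕ =>
        (count (fun D => All S T ZeroSeq D ∧ All S' T' (fun a b => ¬ ZeroSeq a b) D) X : ℝ) /
          (count (fun _ => True) X : ℝ)) Filter.atTop
        (nhds (c ^ (S.card + T.card) * (1 - c) ^ (S'.card + T'.card))) := by
  classical
  refine ⟨fun a b hab => zero_iff hab, ?_⟩
  obtain ⟨c, h1, h2, h3, h4⟩ := Pool.Agent.Results.MP_03e5d0_nt.TwoCurvesAnalyticRankZero.result
  refine ⟨c, h1, h2, h3, fun S T S' T' hS hT hS' hT' hd1 hd2 => ?_⟩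
  refine ((h4 S T hS hT).1 S' T' hS' hT' hd1 hd2).congr fun X => ?_
  congr 2
  unfold count
  refine congrArg Finset.card (Finset.ext fun D => ?_)
  refine (mem_fil _ _ _ _).trans (Iff.trans ?_ (mem_fil _ _ _ _).symm)
  refine and_congr_right fun _ => and_congr_right fun hD => and_congr (and_congr ?_ ?_) (and_congr ?_ ?_)
  · refine forall_congr' fun M => forall_congr' fun hM => ?_
    rw [zero_iff (disc14 hD (hS M hM))]
    exact ⟨fun h => h.2, fun h => ⟨an14 hD (hS M hM) h, h⟩⟩
  · refine forall_congr' fun L => forall_congr' fun hL => ?_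
    rw [zero_iff (disc49 hD (hT L hL))]
    exact ⟨fun h => h.2, fun h => ⟨an49 hD (hT L hL) h, h⟩⟩
  · refine forall_congr' fun M => forall_congr' fun hM => ?_
    exact not_congr (zero_iff (disc14 hD (hS' M hM))).symm
  · refine forall_congr' fun L => forall_congr' fun hL => ?_
    exact not_congr (zero_iff (disc49 hD (hT' L hL))).symm

end Pool.Agent.Results.MP_a3f657_nt.TwoCurvesZeroSequences
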