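import Mathlib
import Pool.Agent.Results.MP_a3f657_nt.TrivialSelInfTwists
import Pool.Agent.V11161.BH.ParZ

/-!
# The `2 ^ ∞`-Selmer groups of the twists of `X_0(14)` by products over clusters of primes with
# difference vectors in Bohr sets

`E^D : y² = x³ + 5805 D² x - 285714 D³` are the quadratic twists of the non-CM curve `E = X_0(14)`, which
has exactly one rational point of order two. The class `Adm` consists of the squarefree `D = 1 mod 4` of
any sign which are squares modulo `7`, prime to `3`, and all prime factors of which split completely in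
`ℚ(i, √2, √-7)` or are inert in `ℚ(√2)` and in `ℚ(√-7)`. `ZeroSeq D`: all the terms of the sequence
`0 → E^D(ℚ) ⊗ ℚ₂/ℤ₂ → Sel_{2 ^ ∞}(E^D) → Ш(E^D)[2 ^ ∞] → 0` are zero. The starting file
`TrivialSelInfTwists` of this problem shows that this is the case for a proportion `0.419...` of the
class, and that for different `M` the events `ZeroSeq (M D)` are asymptotically independent if `D` varies
over the class.

The theorem here is about products `D` of primes in configurations, where the events are completely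
correlated. Let `T` be ANY finite subset of the class, `P = 168 ∏_{M ∈ T} |M|`, and let `c` be a class
modulo `P`, prime to `P`, of primes inert in `ℚ(√2)` and in `ℚ(√-7)`. For all `k` and `η > 0` there are
`z`, `d`, `C`, `X₀` and `ρ, b > 0`, which depend only on `k` and `η`, such that for all `T`, all `c` and
every `X ≥ X₀` there are frequencies `θ_1, …, θ_d` with the following property. Let `B` be the Bohr set
of all integers `|h| ≤ X` with `|exp (2 π i h θ_j) - 1| ≤ ρ` for all `j`; it has at least `b X` elements.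
Put `W = P z!`. For at least `(1 - η) |B| ^ k` of the vectors `(h_1, …, h_k)` in `B ^ k` (the entries
being distinct and not zero) and for arbitrarily large `N`, the same for all these vectors, there are at
least `N / (log N) ^ C` primes `p ≤ N` of the class such that `p_0 = p` and the `p_i = p + W h_i` are
primes of the class, and for all `M ∈ T` and all nonempty subsets `J` of the `k + 1` indices with an even
number of elements, and for all nonempty `J` if `c` is `3` modulo `8` and a square modulo the split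
primes of `M`, the number `D = M ∏_{i ∈ J} p_i*` (`x* = ± x`, `x* = 1` modulo `4`) is in the class, and

`ZeroSeq D` if and only if `ZeroSeq M`.

So the vanishing of the whole `2 ^ ∞`-Selmer group is constant on the cubes of the `2 ^ k` even (or of all
the `2 ^ (k + 1)`) products, for almost all the configurations in the Bohr set, for all the finitely many
curves `E^M` at once.

The criterion with the matrix `R D` over `𝔽₂` is that of `TrivialSelInfTwists`. New here: the matrix of
`M ∏ p_i*` is the one of `M` (`Pool.Agent.V11161.BH.det_mul_DD`), and the configurations of the primes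
(`Pool.Agent.V11161.BH.bohrAPU`, uniform in the modulus).
-/

set_option autoImplicit false

open Filter

namespace Pool.Agent.Results.MP_a3f657_nt.ZeroSequenceClusters

open Pool.Agent.Results.MP_a3f657_nt.TrivialSelInfTwists (Adm ZeroSeq R)

open scoped Classical

/-- the modulus `P = 168 ∏_{M ∈ T} |M|` -/
def modulus (T : Finset ℤ) : ℕ := 168 * ∏ M ∈ T, M.natAbs

/-- `x* = ± x`, congruent to `1` modulo `4` for odd `x` -/
def qstar (x : ℤ) : ℤ := if x % 4 = 1 then x else -x

/-- the numbers `p, p + W h_1, …, p + W h_k` -/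
def members {k : ℕ} (W : ℕ) (h : Fin k → ℤ) (p : ℕ) : Fin (k + 1) → ℤ :=
  Fin.cons (p : ℤ) fun i => (p : ℤ) + W * h i

/-- the subsets `J` which are considered: nonempty, and with an even number of elements if `c` is not
`3` modulo `8` or not a square modulo one of the prime divisors `l = 1` modulo `8` of `M` -/
def Allowed {k : ℕ} (M : ℤ) (c : ℕ) (J : Finset (Fin (k + 1))) : Prop :=
  J.Nonempty ∧ (Even J.card ∨ (c % 8 = 3 ∧
    ∀ l : ℕ, l.Prime → (l : ℤ) ∣ M → l % 8 = 1 → IsSquare (c : ZMod l)))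

/-- the primes `p ≤ N` of the class of `c` for which all the `p + W h_i` are primes of the class and, for
all `M ∈ T` and all allowed `J`, the number `D = M ∏_{i ∈ J} p_i*` is in the class `Adm`, and the sequence
`ZeroSeq` of `E^D` is zero if and only if the one of `E^M` is zero -/
def goodPrimes {k : ℕ} (T : Finset ℤ) (c W : ℕ) (h : Fin k → ℤ) (N : ℕ) : Set ℕ :=
  {p : ℕ | p ≤ N ∧ p.Prime ∧ p % modulus T = c % modulus T ∧
    (∀ i, ∃ q : ℕ, q.Prime ∧ q % modulus T = c % modulus T ∧ (q : ℤ) = p + W * h i) ∧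
    ∀ M ∈ T, ∀ J : Finset (Fin (k + 1)), Allowed M c J →
      Adm (M * ∏ i ∈ J, qstar (members W h p i)) ∧
        (ZeroSeq (M * ∏ i ∈ J, qstar (members W h p i)) ↔ ZeroSeq M)}

/-- the Bohr set of the frequencies `θ_j`, of radius `ρ` and width `X` -/
def bohrSet {d : ℕ} (θ : Fin d → ℝ) (ρ : ℝ) (X : ℕ) : Set ℤ :=
  {h : ℤ | |h| ≤ X ∧ ∀ j, ‖Complex.exp (2 * Real.pi * Complex.I * (h * θ j)) - 1‖ ≤ ρ}

lemma det_inst {n : Type} [Fintype n] (d₁ d₂ : DecidableEq n) (A : Matrix n n (ZMod 2)) :
    @Matrix.det n d₁ _ (ZMod 2) _ A = @Matrix.det n d₂ _ (ZMod 2) _ A := by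
  rw [Subsingleton.elim d₁ d₂]

/-- the determinant of `R D` in terms of the entries -/
lemma det_R (D : ℤ) : (R D).det = (Matrix.of fun i j : Pool.Agent.V11161.BH.spl D =>
    Pool.Agent.V11161.BH.ent (fun i => if 8 ∣ TrivialSelInfTwists.N i then 0 else 1) D i j).det := by
  have e : R D = (Matrix.of fun i j : Pool.Agent.V11161.BH.spl D =>
    Pool.Agent.V11161.BH.ent (fun i => if 8 ∣ TrivialSelInfTwists.N i then 0 else 1) D i j) := by
    ext i j
    unfold R Pool.Agent.V11161.BH.ent
    simp only [Matrix.of_apply]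
    by_cases hij : i = j
    · rw [if_pos hij, if_pos (congrArg Subtype.val hij)]
    · rw [if_neg hij, if_neg (fun h => hij (Subtype.ext h))]
  rw [e]
  exact det_inst _ _ _

open Pool.Agent.V11161.BH in
theorem classPrimes_sub {k : ℕ} {T : Finset ℤ} (hT : ∀ M ∈ T, Adm M) {c W : ℕ}
    (hcop : c.Coprime (modulus T)) (hc8 : c % 8 = 3 ∨ c % 8 = 5)
    (hc7 : c % 7 = 3 ∨ c % 7 = 5 ∨ c % 7 = 6) {h : Fin k → ℤ} (hh0 : ∀ i, h i ≠ 0)
    (hinj : Function.Injective h) (hW : 0 < W) (N : ℕ) :
    classPrimes (modulus T) c W h N ⊆ goodPrimes T c W h N := by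
  intro p hp
  refine ⟨hp.1, hp.2.1, hp.2.2.1, hp.2.2.2, fun M hM J hJ => ?_⟩
  have hd : 168 * M.natAbs ∣ modulus T := Nat.mul_dvd_mul_left 168 (Finset.dvd_prod_of_mem _ hM)
  obtain ⟨g1, g2, g3⟩ := cluster_par (M := M) (hT M hM) (Nat.Coprime.coprime_dvd_right hd hcop)
    hc8 hc7 hh0 hinj hW (classPrimes_dvd hd h N hp) hJ.1 hJ.2
    (fun i => if 8 ∣ TrivialSelInfTwists.N i then 0 else 1)
  have hres := TrivialSelInfTwists.result.1
  have hD : Adm (M * cprod W h p J) := g1
  refine ⟨hD, ?_⟩
  show ZeroSeq (M * cprod W h p J) ↔ ZeroSeq M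
  rw [(hres _ hD).2, (hres M (hT M hM)).2, det_R, det_R, g3]

/-- **Main theorem.** The vanishing of the sequence of the `2 ^ ∞`-Selmer group is the same for all the
twists by `M ∏_{i ∈ J} p_i*`, for all `M ∈ T` and almost all the configurations of the primes in a Bohr
set. -/
theorem result (k : ℕ) (η : ℝ) (hη : 0 < η) :
    ∃ (z d C X₀ : ℕ) (ρ b : ℝ), 0 < ρ ∧ 0 < b ∧
      ∀ T : Finset ℤ, (∀ M ∈ T, Adm M) → ∀ c : ℕ, Nat.Coprime c (modulus T) →
        (c % 8 = 3 ∨ c % 8 = 5) → (c % 7 = 3 ∨ c % 7 = 5 ∨ c % 7 = 6) → ∀ X : ℕ, X₀ ≤ X →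
        ∃ (θ : Fin d → ℝ) (H : Finset (Fin k → ℤ)),
          b * X ≤ ((bohrSet θ ρ X).ncard : ℝ) ∧
          (∀ h ∈ H, (∀ i, h i ∈ bohrSet θ ρ X ∧ h i ≠ 0) ∧ Function.Injective h) ∧
          (1 - η) * ((bohrSet θ ρ X).ncard : ℝ) ^ k ≤ (H.card : ℝ) ∧
          ∃ᶠ N : ℕ in atTop, ∀ h ∈ H, (N : ℝ) / (Real.log N) ^ C ≤
            ((goodPrimes T c (modulus T * z.factorial) h N).ncard : ℝ) := by
  obtain ⟨z, d, C, X₀, ρ, b, hρ, hb, hS⟩ := Pool.Agent.V11161.BH.bohrAPU k η hη
  refine ⟨z, d, C, X₀, ρ, b, hρ, hb, fun T hT c hc hc8 hc7 X hX => ?_⟩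
  have hP0 : 0 < modulus T := Nat.mul_pos (by norm_num) (Finset.prod_pos fun M hM =>
    Int.natAbs_pos.2 (hT M hM).1.ne_zero)
  obtain ⟨θ, H, h1, h2, h3, h4⟩ := hS (modulus T) hP0 c hc X hX
  refine ⟨θ, H, h1, h2, h3, h4.mono fun N hN h hh => (hN h hh).trans ?_⟩
  rw [Nat.cast_le]
  refine Set.ncard_le_ncard (classPrimes_sub hT hc hc8 hc7 (fun i => ((h2 h hh).1 i).2)
    (h2 h hh).2 (Nat.mul_pos hP0 z.factorial_pos) N) ((Set.finite_Iic N).subset fun p hp => hp.1)

end Pool.Agent.Results.MP_a3f657_nt.ZeroSequenceClusters
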